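import Mathlib
import Pool.Agent.N171.Bas

/-!
# Totally degenerate abelian varieties over `ℚ_p`

`q` is a symmetric matrix with entries in `ℚ_pˣ` such that the matrix of the valuations of the entries is
positive definite. By the theorems of Tate, Mumford and Gerritzen the quotient of the torus `𝔾_m ^ g` by the
lattice generated by the columns of `q` is (the analytification of) a principally polarised abelian variety
`A` over `ℚ_p` with split totally multiplicative reduction; its points over an algebraic closure `Ω` of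
`ℚ_p` are `(Ωˣ) ^ g` modulo this lattice, and its endomorphisms are induced by the endomorphisms of the torus
which preserve the lattice. The groups are written additively.
-/

set_option autoImplicit false
set_option warn.classDefReducibility false

namespace Pool.Agent.U367.TD.Ab

open Pool.Agent.N171 TensorProduct

variable {p : ℕ} [Fact p.Prime] {g : ℕ}

/-- The multiplicative group of the algebraic closure of `ℚ_p`, written additively. -/
def UU (p : ℕ) [Fact p.Prime] : Type := Additive (PadicAlgCl p)ˣ

/-- The group structure of `UU p`. -/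
@[instance] noncomputable def grUU (p : ℕ) [Fact p.Prime] : AddCommGroup (UU p) :=
  (inferInstance : AddCommGroup (Additive (PadicAlgCl p)ˣ))

/-- The inclusion of `ℚ_pˣ`. -/
noncomputable def incl (x : ℚ_[p]ˣ) : UU p :=
  Additive.ofMul (Units.map (algebraMap ℚ_[p] (PadicAlgCl p) : ℚ_[p] →* PadicAlgCl p) x)

/-- The Galois action on the multiplicative group. -/
noncomputable def galU (σ : Gal(PadicAlgCl p/ℚ_[p])) : UU p →+ UU p :=
  MonoidHom.toAdditive (Units.map ((σ : PadicAlgCl p ≃ₐ[ℚ_[p]] PadicAlgCl p) :
    PadicAlgCl p →* PadicAlgCl p))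

/-- The action of an integral matrix on the points of the torus. -/
noncomputable def mact (M : Matrix (Fin g) (Fin g) ℤ) : (Fin g → UU p) →+ (Fin g → UU p) where
  toFun x := fun i => ∑ j, M i j • x j
  map_zero' := by
    funext i
    simp
  map_add' x y := by
    funext i
    simp [smul_add, Finset.sum_add_distrib]

/-- The homomorphism from `ℤ ^ g` to the points of the torus given by a matrix with entries in
`ℚ_pˣ`. -/
noncomputable def per (q : Matrix (Fin g) (Fin g) ℚ_[p]ˣ) : (Fin g → ℤ) →+ (Fin g → UU p) where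
  toFun m := fun i => ∑ j, m j • incl (q i j)
  map_zero' := by
    funext i
    simp
  map_add' x y := by
    funext i
    simp [add_smul, Finset.sum_add_distrib]

/-- The lattice in the torus generated by the columns of `q`. -/
noncomputable def lat (q : Matrix (Fin g) (Fin g) ℚ_[p]ˣ) : AddSubgroup (Fin g → UU p) :=
  (per q).range

/-- The points over the algebraic closure of the totally degenerate abelian variety with the period
matrix `q`. -/
def AV (q : Matrix (Fin g) (Fin g) ℚ_[p]ˣ) : Type := (Fin g → UU p) ⧸ lat q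

/-- The group structure of `AV q`. -/
@[instance] noncomputable def grAV (q : Matrix (Fin g) (Fin g) ℚ_[p]ˣ) : AddCommGroup (AV q) :=
  (inferInstance : AddCommGroup ((Fin g → UU p) ⧸ lat q))

/-- The uniformisation: the class of a point of the torus. -/
noncomputable def cl (q : Matrix (Fin g) (Fin g) ℚ_[p]ˣ) : (Fin g → UU p) →+ AV q :=
  QuotientAddGroup.mk' (lat q)

/-- The Galois action on the points of the torus. -/
noncomputable def galT (σ : Gal(PadicAlgCl p/ℚ_[p])) : (Fin g → UU p) →+ (Fin g → UU p) where
  toFun x := fun i => galU σ (x i)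
  map_zero' := by
    funext i
    exact map_zero _
  map_add' x y := by
    funext i
    exact map_add _ _ _

theorem galU_incl (σ : Gal(PadicAlgCl p/ℚ_[p])) (x : ℚ_[p]ˣ) : galU σ (incl x) = incl x := by
  apply Additive.toMul.injective
  apply Units.ext
  exact σ.commutes _

theorem galT_per (σ : Gal(PadicAlgCl p/ℚ_[p])) (q : Matrix (Fin g) (Fin g) ℚ_[p]ˣ)
    (m : Fin g → ℤ) : galT σ (per q m) = per q m := by
  funext i
  change galU σ (∑ j, m j • incl (q i j)) = ∑ j, m j • incl (q i j)
  rw [map_sum]
  refine Finset.sum_congr rfl fun j _ => ?_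
  rw [map_zsmul, galU_incl]

theorem lat_le (σ : Gal(PadicAlgCl p/ℚ_[p])) (q : Matrix (Fin g) (Fin g) ℚ_[p]ˣ) :
    lat q ≤ (lat q).comap (galT σ) := by
  rintro _ ⟨m, rfl⟩
  exact ⟨m, (galT_per σ q m).symm⟩

/-- The Galois action on the points of the abelian variety. -/
noncomputable def galA (q : Matrix (Fin g) (Fin g) ℚ_[p]ˣ) (σ : Gal(PadicAlgCl p/ℚ_[p])) :
    AV q →+ AV q :=
  QuotientAddGroup.map (lat q) (lat q) (galT σ) (lat_le σ q)

/-- An endomorphism of the abelian variety: it is induced by an endomorphism of the torus. -/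
def IsEndo (q : Matrix (Fin g) (Fin g) ℚ_[p]ˣ) (f : AV q →+ AV q) : Prop :=
  ∃ M : Matrix (Fin g) (Fin g) ℤ, ∀ x : Fin g → UU p, f (cl q x) = cl q (mact M x)

/-- The rational Tate module `V_p = ℚ_p ⊗ T_p`. -/
def VA (q : Matrix (Fin g) (Fin g) ℚ_[p]ˣ) : Type := ℚ_[p] ⊗[ℤ_[p]] TateMod p (AV q)

/-- The group structure of `V_p`. -/
@[instance] noncomputable def grVA (q : Matrix (Fin g) (Fin g) ℚ_[p]ˣ) : AddCommGroup (VA q) :=
  (inferInstance : AddCommGroup (ℚ_[p] ⊗[ℤ_[p]] TateMod p (AV q)))

/-- `V_p` as a vector space over `ℚ_p`. -/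
@[instance] noncomputable def modVA (q : Matrix (Fin g) (Fin g) ℚ_[p]ˣ) : Module ℚ_[p] (VA q) :=
  (inferInstance : Module ℚ_[p] (ℚ_[p] ⊗[ℤ_[p]] TateMod p (AV q)))

/-- The linear map of the rational Tate module given by an additive map of the points. -/
noncomputable def vMap {q : Matrix (Fin g) (Fin g) ℚ_[p]ˣ} (f : AV q →+ AV q) :
    VA q →ₗ[ℚ_[p]] VA q :=
  LinearMap.baseChange ℚ_[p] (tmMap f)

/-- The Riemann conditions: `q` is symmetric, and the matrix of the valuations is positive definite. -/
def IsRiemann (q : Matrix (Fin g) (Fin g) ℚ_[p]ˣ) : Prop :=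
  q.IsSymm ∧ (Matrix.of fun i j => -Real.log ‖((q i j : ℚ_[p]ˣ) : ℚ_[p])‖).PosDef

end Pool.Agent.U367.TD.Ab
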