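import Pool.Agent.U367.TD.Stm

set_option autoImplicit false

namespace Pool.Agent.U367.TD

theorem t_TH : S_TH := by
  intro p _
  have h1 : (Set.range (Rat.cast : ℚ → ℚ_[p])).Countable := Set.countable_range _
  have h2 : Dense (Set.range (Rat.cast : ℚ → ℚ_[p]))ᶜ := h1.dense_compl ℚ_[p]
  obtain ⟨x, hx, hx1⟩ := h2.exists_mem_open (Metric.isOpen_ball (x := (0 : ℚ_[p])) (ε := 1))
    ⟨0, Metric.mem_ball_self one_pos⟩
  have hx2 : ‖x‖ ≤ 1 := by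
    rw [Metric.mem_ball, dist_zero_right] at hx1
    exact hx1.le
  obtain ⟨θ, hθ⟩ : ∃ θ : ℤ_[p], (θ : ℚ_[p]) = x := ⟨⟨x, hx2⟩, rfl⟩
  refine ⟨θ, fun a b h => ?_⟩
  by_contra hb
  apply hx
  have h3 := congrArg (fun z : ℤ_[p] => (z : ℚ_[p])) h
  simp only [PadicInt.coe_mul, PadicInt.coe_intCast] at h3
  have hb' : ((b : ℤ) : ℚ_[p]) ≠ 0 := by exact_mod_cast hb
  refine ⟨(a : ℚ) / (b : ℚ), ?_⟩
  push_cast
  rw [div_eq_iff hb', h3, hθ]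

end Pool.Agent.U367.TD
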