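import Pool.Agent.U367.TD.Phi
import Pool.Agent.U367.TD.Th

set_option autoImplicit false

namespace Pool.Agent.U367.TD

open Pool.Agent.N171 TensorProduct

section tors

variable {p : ℕ} [Fact p.Prime] {M : Type*} [AddCommGroup M]

theorem p_smul_eq_zero {a : TateMod p M} (h : (p : ℤ_[p]) • a = 0) : a = 0 := by
  apply tm_ext
  intro n
  rw [Nat.cast_smul_eq_nsmul] at h
  have h1 : (p • a).1 (n + 1) = (0 : TateMod p M).1 (n + 1) := by rw [h]
  have h2 : (p • a).1 (n + 1) = p • a.1 (n + 1) := rfl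
  rw [h2, tm_succ] at h1
  rw [h1]
  rfl

theorem smul_eq_zero_tm {z : ℤ_[p]} (hz : z ≠ 0) {a : TateMod p M} (h : z • a = 0) : a = 0 := by
  rw [PadicInt.unitCoeff_spec hz, mul_smul] at h
  have h1 : ((p : ℤ_[p]) ^ z.valuation) • a = 0 := by
    have h2 := congrArg (fun b => ((PadicInt.unitCoeff hz)⁻¹ : ℤ_[p]ˣ).val • b) h
    simp only [smul_zero, smul_smul] at h2
    rw [← mul_assoc, Units.inv_mul, one_mul] at h2
    exact h2
  generalize z.valuation = k at h1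
  induction k with
  | zero => rwa [pow_zero, one_smul] at h1
  | succ k ih =>
    apply ih
    rw [pow_succ', mul_smul] at h1
    exact p_smul_eq_zero h1

theorem tmul_inj : Function.Injective (fun t : TateMod p M => (1 : ℚ_[p]) ⊗ₜ[ℤ_[p]] t) := by
  have hfl : Module.Flat ℤ_[p] (TateMod p M) := by
    rw [Module.Flat.flat_iff_torsion_eq_bot_of_isBezout, eq_bot_iff]
    intro a ha
    rw [Submodule.mem_torsion_iff] at ha
    obtain ⟨z, hz⟩ := ha
    exact smul_eq_zero_tm (nonZeroDivisors.ne_zero z.2) hz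
  have h1 : Function.Injective (Algebra.linearMap ℤ_[p] ℚ_[p]) := by
    intro x y h
    exact Subtype.coe_injective h
  have h2 := Module.Flat.rTensor_preserves_injective_linearMap (M := TateMod p M) _ h1
  intro s t h
  have h3 : (LinearMap.rTensor (TateMod p M) (Algebra.linearMap ℤ_[p] ℚ_[p])) (1 ⊗ₜ s) =
      (LinearMap.rTensor (TateMod p M) (Algebra.linearMap ℤ_[p] ℚ_[p])) (1 ⊗ₜ t) := by
    rw [LinearMap.rTensor_tmul, LinearMap.rTensor_tmul]
    simpa using h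
  have h4 := congrArg (TensorProduct.lid ℤ_[p] (TateMod p M)) (h2 h3)
  simpa using h4

end tors

section fin

variable {p : ℕ} [Fact p.Prime] {g : ℕ}

/-- the inclusion as a homomorphism -/
noncomputable def inclH : Additive ℚ_[p]ˣ →+ UU p :=
  MonoidHom.toAdditive (Units.map (algebraMap ℚ_[p] (PadicAlgCl p) : ℚ_[p] →* PadicAlgCl p))

theorem inclH_inj : Function.Injective (inclH : Additive ℚ_[p]ˣ →+ UU p) := by
  intro x y h
  have h1 : (algebraMap ℚ_[p] (PadicAlgCl p)) ((x.toMul : ℚ_[p]ˣ) : ℚ_[p]) =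
      (algebraMap ℚ_[p] (PadicAlgCl p)) ((y.toMul : ℚ_[p]ˣ) : ℚ_[p]) :=
    congrArg (fun u : UU p => ((u.toMul : (PadicAlgCl p)ˣ) : PadicAlgCl p)) h
  have h2 := (algebraMap ℚ_[p] (PadicAlgCl p)).injective h1
  exact Additive.toMul.injective (Units.ext h2)

theorem inclH_ofMul (x : ℚ_[p]ˣ) : inclH (Additive.ofMul x) = (incl x : UU p) := rfl

/-- the period matrix -/
noncomputable def qB (e : ℤ_[p] →+ Additive ℚ_[p]ˣ) (π : ℚ_[p]ˣ)
    (B : Matrix (Fin g) (Fin g) ℤ_[p]) : Matrix (Fin g) (Fin g) ℚ_[p]ˣ :=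
  Matrix.of fun i j => (if i = j then π else 1) * (e (B i j)).toMul

theorem qB_map (e : ℤ_[p] →+ Additive ℚ_[p]ˣ) (π : ℚ_[p]ˣ) (B : Matrix (Fin g) (Fin g) ℤ_[p]) :
    (qB e π B).map incl = qm (incl π : UU p) (inclH.comp e) B := by
  funext i j
  change inclH (Additive.ofMul ((if i = j then π else 1) * (e (B i j)).toMul)) =
    (if i = j then (incl π : UU p) else 0) + inclH (e (B i j))
  rw [ofMul_mul, map_add]
  congr 1
  split_ifs
  · rfl
  · exact map_zero _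

theorem perB_inj (e : ℤ_[p] →+ Additive ℚ_[p]ˣ)
    (hn : ∀ z, ‖(((e z).toMul : ℚ_[p]ˣ) : ℚ_[p])‖ = 1) (π : ℚ_[p]ˣ) (hπ : (π : ℚ_[p]) = p)
    (B : Matrix (Fin g) (Fin g) ℤ_[p]) :
    Function.Injective (per (qm (incl π : UU p) (inclH.comp e) B)) := by
  rw [injective_iff_map_eq_zero]
  intro m hm
  rw [per_eq] at hm
  funext i
  have h1 : m i • (incl π : UU p) + inclH (e (B.mulVec (cz m) i)) = 0 := congrFun hm i
  rw [← inclH_ofMul, ← map_zsmul, ← map_add] at h1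
  have h2 := inclH_inj (h1.trans (map_zero inclH).symm)
  have h3 : ((π ^ (m i) * (e (B.mulVec (cz m) i)).toMul : ℚ_[p]ˣ) : ℚ_[p]) = 1 :=
    congrArg (fun u : Additive ℚ_[p]ˣ => ((u.toMul : ℚ_[p]ˣ) : ℚ_[p])) h2
  have h4 : ‖((π ^ (m i) * (e (B.mulVec (cz m) i)).toMul : ℚ_[p]ˣ) : ℚ_[p])‖ = 1 := by
    rw [h3, norm_one]
  rw [Units.val_mul, norm_mul, hn, mul_one, Units.val_zpow_eq_zpow_val, norm_zpow, hπ,
    Padic.norm_p, inv_zpow, inv_eq_one] at h4
  have hp1 : (1 : ℝ) < p := by exact_mod_cast (Fact.out : p.Prime).one_lt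
  exact (zpow_eq_one_iff_right₀ (by positivity) hp1.ne').1 h4

theorem galT_inclH (σ : Gal(PadicAlgCl p/ℚ_[p])) (w : Fin g → Additive ℚ_[p]ˣ) :
    galT σ (fun i => inclH (w i)) = fun i => inclH (w i) := by
  funext i
  exact galU_incl σ _

theorem galT_mact (σ : Gal(PadicAlgCl p/ℚ_[p])) (M : Matrix (Fin g) (Fin g) ℤ)
    (x : Fin g → UU p) : galT σ (mact M x) = mact M (galT σ x) := by
  funext i
  change galU σ (∑ j, M i j • x j) = ∑ j, M i j • galU σ (x j)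
  rw [map_sum]
  refine Finset.sum_congr rfl fun j _ => ?_
  rw [map_zsmul]

/-- the transport of `S_PHI` to the abelian variety -/
theorem exists_phi (e : ℤ_[p] →+ Additive ℚ_[p]ˣ)
    (hn : ∀ z, ‖(((e z).toMul : ℚ_[p]ˣ) : ℚ_[p])‖ = 1) (π : ℚ_[p]ˣ) (hπ : (π : ℚ_[p]) = p)
    (B : Matrix (Fin g) (Fin g) ℤ_[p]) (Q : Matrix (Fin g) (Fin g) (UU p))
    (hQ : Q = qm (incl π : UU p) (inclH.comp e) B) :
    ∃ φ : TateMod p ((Fin g → UU p) ⧸ (per Q).range) →ₗ[ℤ_[p]]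
        TateMod p ((Fin g → UU p) ⧸ (per Q).range),
      ∀ (a : TateMod p ((Fin g → UU p) ⧸ (per Q).range)) (n : ℕ) (x : Fin g → UU p)
        (m : Fin g → ℤ) (M : Matrix (Fin g) (Fin g) ℤ) (D : Matrix (Fin g) (Fin g) ℤ_[p]),
        B = cm p M + (p : ℤ_[p]) ^ n • D → a.1 n = QuotientAddGroup.mk x → p ^ n • x = per Q m →
        (φ a).1 n = QuotientAddGroup.mk (FF (inclH.comp e) M D x m) := by
  subst hQ
  obtain ⟨φ, hφ⟩ := t_PHI p (UU p) g (incl π) (inclH.comp e) B (perB_inj e hn π hπ B)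
  exact ⟨φ, hφ⟩

theorem exists_phi' (e : ℤ_[p] →+ Additive ℚ_[p]ˣ)
    (hn : ∀ z, ‖(((e z).toMul : ℚ_[p]ˣ) : ℚ_[p])‖ = 1) (π : ℚ_[p]ˣ) (hπ : (π : ℚ_[p]) = p)
    (B : Matrix (Fin g) (Fin g) ℤ_[p]) (q : Matrix (Fin g) (Fin g) ℚ_[p]ˣ)
    (hq : q.map incl = qm (incl π : UU p) (inclH.comp e) B) :
    ∃ φ : TateMod p (AV q) →ₗ[ℤ_[p]] TateMod p (AV q),
      ∀ (a : TateMod p (AV q)) (n : ℕ) (x : Fin g → UU p)
        (m : Fin g → ℤ) (M : Matrix (Fin g) (Fin g) ℤ) (D : Matrix (Fin g) (Fin g) ℤ_[p]),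
        B = cm p M + (p : ℤ_[p]) ^ n • D → a.1 n = (QuotientAddGroup.mk x : AV q) →
        p ^ n • x = per (q.map incl) m →
        (φ a).1 n = (QuotientAddGroup.mk (FF (inclH.comp e) M D x m) : AV q) :=
  exists_phi e hn π hπ B (q.map incl) hq

end fin

end Pool.Agent.U367.TD
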