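import Pool.Agent.U367.TD.Def

/-!
# Project TD: statements of the packages
-/

set_option autoImplicit false

namespace Pool.Agent.U367.TD

open Pool.Agent.N171 TensorProduct

/-- The final statement: the map `End(A) ⊗ ℚ_p → End_G(V_p A)` is not surjective for some totally
degenerate abelian surface over `ℚ_p`, for every `p`. -/
def S_FINAL : Prop := ∀ (p : ℕ) [Fact p.Prime], ∃ q : Matrix (Fin 2) (Fin 2) ℚ_[p]ˣ, IsRiemann q ∧
  (∀ f : AV q →+ AV q, IsEndo q f → ∃ n : ℤ, ∀ x, f x = n • x) ∧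
  ∃ φ : VA q →ₗ[ℚ_[p]] VA q, (∀ σ, φ ∘ₗ vMap (galA q σ) = vMap (galA q σ) ∘ₗ φ) ∧
    φ ∉ Submodule.span ℚ_[p] {ψ | ∃ f, IsEndo q f ∧ ψ = vMap f}

/-- E: an injective homomorphism from `ℤ_p` to the units of `ℤ_p` (for instance `z ↦ (1 + p ^ 2) ^ z`). -/
def S_E : Prop := ∀ (p : ℕ) [Fact p.Prime], ∃ e : ℤ_[p] →+ Additive ℚ_[p]ˣ, Function.Injective e ∧
  ∀ z, ‖(((e z).toMul : ℚ_[p]ˣ) : ℚ_[p])‖ = 1

/-- TH: an irrational `p`-adic integer. -/
def S_TH : Prop := ∀ (p : ℕ) [Fact p.Prime], ∃ θ : ℤ_[p], ∀ a b : ℤ, (a : ℤ_[p]) = θ * b → b = 0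

section abs

variable {U : Type} [AddCommGroup U] {g : ℕ} {p : ℕ} [Fact p.Prime]

/-- The matrix with the entries `δ_{ij} π + e(B_{ij})`. -/
noncomputable def qm (π : U) (e : ℤ_[p] →+ U) (B : Matrix (Fin g) (Fin g) ℤ_[p]) : Matrix (Fin g) (Fin g) U :=
  Matrix.of fun i j => (if i = j then π else 0) + e (B i j)

/-- The characterisation of the endomorphism of the Tate module given by `B`. -/
def IsPhi (π : U) (e : ℤ_[p] →+ U) (B : Matrix (Fin g) (Fin g) ℤ_[p])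
    (φ : TateMod p ((Fin g → U) ⧸ (per (qm π e B)).range) →ₗ[ℤ_[p]]
      TateMod p ((Fin g → U) ⧸ (per (qm π e B)).range)) : Prop :=
  ∀ (a : TateMod p ((Fin g → U) ⧸ (per (qm π e B)).range)) (n : ℕ) (x : Fin g → U) (m : Fin g → ℤ)
    (M : Matrix (Fin g) (Fin g) ℤ) (D : Matrix (Fin g) (Fin g) ℤ_[p]),
    B = M.map (Int.cast : ℤ → ℤ_[p]) + (p : ℤ_[p]) ^ n • D →
    a.1 n = QuotientAddGroup.mk x → p ^ n • x = per (qm π e B) m →
    (φ a).1 n = QuotientAddGroup.mk (mact M x + fun i => e ((D * M.map (Int.cast : ℤ → ℤ_[p]) -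
      M.map (Int.cast : ℤ → ℤ_[p]) * D).mulVec (fun j => (m j : ℤ_[p])) i))

end abs

/-- PHI: the endomorphism of the Tate module given by `B`. -/
def S_PHI : Prop := ∀ (p : ℕ) [Fact p.Prime] (U : Type) [AddCommGroup U] (g : ℕ) (π : U)
  (e : ℤ_[p] →+ U) (B : Matrix (Fin g) (Fin g) ℤ_[p]), Function.Injective (per (qm π e B)) →
  ∃ φ, IsPhi π e B φ

/-- IND: `φ` and the identity are linearly independent over `ℤ_p` when `U` is `p`-divisible and `B` has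
the second column `(1, 0)`. -/
def S_IND : Prop := ∀ (p : ℕ) [Fact p.Prime] (U : Type) [AddCommGroup U] (π : U)
  (e : ℤ_[p] →+ U) (B : Matrix (Fin 2) (Fin 2) ℤ_[p]), (∀ x : U, ∃ y, p • y = x) →
  Function.Injective (per (qm π e B)) → B 0 1 = 1 → B 1 1 = 0 → ∀ φ, IsPhi π e B φ →
  ∀ z w : ℤ_[p], (∀ a, z • a + w • φ a = 0) → z = 0 ∧ w = 0

/-- END: the endomorphisms of the abelian variety with `B = (θ, 1; 1, 0)` are the integers. -/
def S_END : Prop := ∀ (p : ℕ) [Fact p.Prime] (e : ℤ_[p] →+ Additive ℚ_[p]ˣ), Function.Injective e →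
  (∀ z, ‖(((e z).toMul : ℚ_[p]ˣ) : ℚ_[p])‖ = 1) → ∀ θ : ℤ_[p],
  (∀ a b : ℤ, (a : ℤ_[p]) = θ * b → b = 0) → ∀ (π : ℚ_[p]ˣ), (π : ℚ_[p]) = p →
  ∀ f : AV (Matrix.of fun i j => (if i = j then π else 1) * (e (!![θ, 1; 1, 0] i j)).toMul) →+
    AV (Matrix.of fun i j => (if i = j then π else 1) * (e (!![θ, 1; 1, 0] i j)).toMul),
  IsEndo _ f → ∃ n : ℤ, ∀ x, f x = n • x

end Pool.Agent.U367.TD
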