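import Pool.Agent.U367.TD.Ab
import Pool.Agent.U367.TD.Stm

set_option autoImplicit false

namespace Pool.Agent.U367.TD

open Pool.Agent.N171 TensorProduct

theorem conv (h : S_FINAL) (p : ℕ) [Fact p.Prime] :
    ∃ q : Matrix (Fin 2) (Fin 2) ℚ_[p]ˣ, Ab.IsRiemann q ∧
    (∀ f : Ab.AV q →+ Ab.AV q, Ab.IsEndo q f → ∃ n : ℤ, ∀ x, f x = n • x) ∧
    ∃ φ : Ab.VA q →ₗ[ℚ_[p]] Ab.VA q,
      (∀ σ, φ ∘ₗ Ab.vMap (Ab.galA q σ) = Ab.vMap (Ab.galA q σ) ∘ₗ φ) ∧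
      φ ∉ Submodule.span ℚ_[p] {ψ | ∃ f, Ab.IsEndo q f ∧ ψ = Ab.vMap f} := by
  obtain ⟨q, h1, h2, φ, h3, h4⟩ := h p
  exact ⟨q, h1, h2, φ, h3, h4⟩

end Pool.Agent.U367.TD
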