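import Mathlib
import Pool.Agent.N171.Bas

/-!
# Totally degenerate abelian varieties over `ℚ_p`

`q` is a symmetric matrix with entries in `ℚ_pˣ` such that the matrix of the valuations of the entries is
positive definite. By the theorems of Tate, Mumford and Gerritzen the quotient of the torus `𝔾_m ^ g` by the
lattice generated by the rows of `q` is (the analytification of) a principally polarised abelian variety
`A` over `ℚ_p` with split totally multiplicative reduction; its points over an algebraic closure `Ω` of
`ℚ_p` are `(Ωˣ) ^ g` modulo this lattice, and its endomorphisms are induced by the endomorphisms of the torus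
which preserve the lattice. The groups are written additively.
-/

set_option autoImplicit false

namespace Pool.Agent.U367.TD

open Pool.Agent.N171 TensorProduct

section abs

variable {U : Type*} [AddCommGroup U] {g : ℕ}

/-- The action of an integral matrix on `U ^ g`. -/
def mact (M : Matrix (Fin g) (Fin g) ℤ) : (Fin g → U) →+ (Fin g → U) where
  toFun x := fun i => ∑ j, M i j • x j
  map_zero' := by
    funext i
    simp
  map_add' x y := by
    funext i
    simp [smul_add, Finset.sum_add_distrib]

/-- The homomorphism from `ℤ ^ g` to `U ^ g` given by a matrix with entries in `U`. -/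
def per (q : Matrix (Fin g) (Fin g) U) : (Fin g → ℤ) →+ (Fin g → U) where
  toFun m := fun i => ∑ j, m j • q i j
  map_zero' := by
    funext i
    simp
  map_add' x y := by
    funext i
    simp [add_smul, Finset.sum_add_distrib]

end abs

section loc

variable {p : ℕ} [Fact p.Prime] {g : ℕ}

/-- The multiplicative group of the algebraic closure of `ℚ_p`, written additively. -/
abbrev UU (p : ℕ) [Fact p.Prime] : Type := Additive (PadicAlgCl p)ˣ

/-- The inclusion of `ℚ_pˣ`. -/
noncomputable def incl (x : ℚ_[p]ˣ) : UU p :=
  Additive.ofMul (Units.map (algebraMap ℚ_[p] (PadicAlgCl p) : ℚ_[p] →* PadicAlgCl p) x)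

/-- The Galois action on the multiplicative group. -/
noncomputable def galU (σ : Gal(PadicAlgCl p/ℚ_[p])) : UU p →+ UU p :=
  MonoidHom.toAdditive (Units.map ((σ : PadicAlgCl p ≃ₐ[ℚ_[p]] PadicAlgCl p) :
    PadicAlgCl p →* PadicAlgCl p))

/-- The lattice in the torus generated by the columns of `q`. -/
noncomputable def lat (q : Matrix (Fin g) (Fin g) ℚ_[p]ˣ) : AddSubgroup (Fin g → UU p) :=
  (per (q.map incl)).range

/-- The points over the algebraic closure of the totally degenerate abelian variety with the period
matrix `q`. -/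
abbrev AV (q : Matrix (Fin g) (Fin g) ℚ_[p]ˣ) : Type := (Fin g → UU p) ⧸ lat q

/-- The Galois action on the points of the torus. -/
noncomputable def galT (σ : Gal(PadicAlgCl p/ℚ_[p])) : (Fin g → UU p) →+ (Fin g → UU p) where
  toFun x := fun i => galU σ (x i)
  map_zero' := by
    funext i
    exact map_zero _
  map_add' x y := by
    funext i
    exact map_add _ _ _

theorem galU_incl (σ : Gal(PadicAlgCl p/ℚ_[p])) (x : ℚ_[p]ˣ) : galU σ (incl x) = incl x := by
  apply Additive.toMul.injective
  apply Units.ext
  exact σ.commutes _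

theorem galT_per (σ : Gal(PadicAlgCl p/ℚ_[p])) (q : Matrix (Fin g) (Fin g) ℚ_[p]ˣ)
    (m : Fin g → ℤ) : galT σ (per (q.map incl) m) = per (q.map incl) m := by
  funext i
  change galU σ (∑ j, m j • incl (q i j)) = ∑ j, m j • incl (q i j)
  rw [map_sum]
  refine Finset.sum_congr rfl fun j _ => ?_
  rw [map_zsmul, galU_incl]

/-- The Galois action on the points of the abelian variety. -/
noncomputable def galA (q : Matrix (Fin g) (Fin g) ℚ_[p]ˣ) (σ : Gal(PadicAlgCl p/ℚ_[p])) :
    AV q →+ AV q :=
  QuotientAddGroup.map _ _ (galT σ) (by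
    rintro _ ⟨m, rfl⟩
    exact ⟨m, (galT_per σ q m).symm⟩)

/-- An endomorphism of the abelian variety: it is induced by an endomorphism of the torus. -/
def IsEndo (q : Matrix (Fin g) (Fin g) ℚ_[p]ˣ) (f : AV q →+ AV q) : Prop :=
  ∃ M : Matrix (Fin g) (Fin g) ℤ, ∀ x : Fin g → UU p,
    f (QuotientAddGroup.mk x) = QuotientAddGroup.mk (mact M x)

/-- The rational Tate module `V_p = ℚ_p ⊗ T_p`. -/
abbrev VA (q : Matrix (Fin g) (Fin g) ℚ_[p]ˣ) : Type := ℚ_[p] ⊗[ℤ_[p]] TateMod p (AV q)

/-- The linear map of the rational Tate module given by an additive map of the points. -/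
noncomputable def vMap {q : Matrix (Fin g) (Fin g) ℚ_[p]ˣ} (f : AV q →+ AV q) :
    VA q →ₗ[ℚ_[p]] VA q :=
  LinearMap.baseChange ℚ_[p] (tmMap f)

/-- The Riemann conditions: `q` is symmetric, and the matrix of the valuations is positive definite. -/
def IsRiemann (q : Matrix (Fin g) (Fin g) ℚ_[p]ˣ) : Prop :=
  q.IsSymm ∧ (Matrix.of fun i j => -Real.log ‖((q i j : ℚ_[p]ˣ) : ℚ_[p])‖).PosDef

end loc

end Pool.Agent.U367.TD
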