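import Pool.Agent.U367.TD.Fin

set_option autoImplicit false

namespace Pool.Agent.U367.TD

open Pool.Agent.N171 TensorProduct

variable {p : ℕ} [Fact p.Prime]

theorem ind_pi (e : ℤ_[p] →+ Additive ℚ_[p]ˣ)
    (hn : ∀ z, ‖(((e z).toMul : ℚ_[p]ˣ) : ℚ_[p])‖ = 1) (π : ℚ_[p]ˣ) (hπ : (π : ℚ_[p]) = p)
    (k : ℤ) (w : ℤ_[p]) (h1 : k • (incl π : UU p) + inclH (e w) = 0) : k = 0 := by
  rw [← inclH_ofMul, ← map_zsmul, ← map_add] at h1
  have h2 := inclH_inj (h1.trans (map_zero inclH).symm)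
  have h3 : ((π ^ k * (e w).toMul : ℚ_[p]ˣ) : ℚ_[p]) = 1 :=
    congrArg (fun u : Additive ℚ_[p]ˣ => ((u.toMul : ℚ_[p]ˣ) : ℚ_[p])) h2
  have h4 : ‖((π ^ k * (e w).toMul : ℚ_[p]ˣ) : ℚ_[p])‖ = 1 := by
    rw [h3, norm_one]
  rw [Units.val_mul, norm_mul, hn, mul_one, Units.val_zpow_eq_zpow_val, norm_zpow, hπ,
    Padic.norm_p, inv_zpow, inv_eq_one] at h4
  have hp1 : (1 : ℝ) < p := by exact_mod_cast (Fact.out : p.Prime).one_lt
  exact (zpow_eq_one_iff_right₀ (by positivity) hp1.ne').1 h4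

theorem commute_of_endo {g : ℕ} (e : ℤ_[p] →+ Additive ℚ_[p]ˣ) (he : Function.Injective e)
    (hn : ∀ z, ‖(((e z).toMul : ℚ_[p]ˣ) : ℚ_[p])‖ = 1) (π : ℚ_[p]ˣ) (hπ : (π : ℚ_[p]) = p)
    (B : Matrix (Fin g) (Fin g) ℤ_[p]) (M : Matrix (Fin g) (Fin g) ℤ)
    (f : AV (qB e π B) →+ AV (qB e π B))
    (hM : ∀ x : Fin g → UU p, f (QuotientAddGroup.mk x) = QuotientAddGroup.mk (mact M x))
    (m : Fin g → ℤ) : (cm p M).mulVec (B.mulVec (cz m)) = B.mulVec ((cm p M).mulVec (cz m)) := by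
  have h1 : ∃ m' : Fin g → ℤ, mact M (per (qm (incl π : UU p) (inclH.comp e) B) m) =
      per (qm (incl π : UU p) (inclH.comp e) B) m' := by
    rw [← qB_map]
    have h2 := hM (per ((qB e π B).map incl) m)
    have h3 : (QuotientAddGroup.mk (per ((qB e π B).map incl) m) : AV (qB e π B)) = 0 :=
      (QuotientAddGroup.eq_zero_iff _).2 ⟨m, rfl⟩
    rw [h3, map_zero] at h2
    obtain ⟨m', hm'⟩ := (QuotientAddGroup.eq_zero_iff _).1 h2.symm
    exact ⟨m', hm'.symm⟩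
  obtain ⟨m', h⟩ := h1
  rw [per_eq, map_add, mact_pv, mact_ev, per_eq] at h
  have h4 : ∀ i, M.mulVec m i = m' i := by
    intro i
    have h5 : M.mulVec m i • (incl π : UU p) + inclH (e ((cm p M).mulVec (B.mulVec (cz m)) i)) =
        m' i • (incl π : UU p) + inclH (e (B.mulVec (cz m') i)) := congrFun h i
    have h6 : (M.mulVec m i - m' i) • (incl π : UU p) +
        inclH (e ((cm p M).mulVec (B.mulVec (cz m)) i - B.mulVec (cz m') i)) = 0 := by
      rw [sub_smul, map_sub, map_sub, ← sub_eq_zero.2 h5]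
      abel
    exact sub_eq_zero.1 (ind_pi e hn π hπ _ _ h6)
  have h7 : M.mulVec m = m' := funext h4
  rw [← h7] at h
  have h8 := add_left_cancel h
  funext i
  have h9 : inclH (e ((cm p M).mulVec (B.mulVec (cz m)) i)) =
      inclH (e (B.mulVec (cz (M.mulVec m)) i)) := congrFun h8 i
  have h10 := he (inclH_inj h9)
  rw [h10, cz_mulVec]

theorem t_END : S_END := by
  intro p _ e he hn θ hθ π hπ f hf
  obtain ⟨M, hM⟩ := hf
  have h := commute_of_endo e he hn π hπ (B0 θ) M f hM ![1, 0]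
  have h0 := congrFun h 0
  have h1 := congrFun h 1
  simp [B0, cm, cz, Matrix.mulVec, dotProduct, Fin.sum_univ_two] at h0 h1
  have h2 : M 1 0 = 0 := by
    apply hθ (M 0 0 - M 1 1) (M 1 0)
    push_cast
    rw [← h1]
    ring
  have h3 : M 0 1 = 0 := by
    rw [h2, Int.cast_zero] at h0
    have h4 : ((M 0 1 : ℤ) : ℤ_[p]) = 0 := by linear_combination h0
    exact_mod_cast h4
  have h5 : M 1 1 = M 0 0 := by
    rw [h2, Int.cast_zero, zero_mul, zero_add] at h1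
    exact_mod_cast h1
  refine ⟨M 0 0, fun x => ?_⟩
  obtain ⟨y, rfl⟩ := QuotientAddGroup.mk_surjective x
  rw [hM y]
  have h6 : mact M y = M 0 0 • y := by
    funext i
    change ∑ j, M i j • y j = M 0 0 • y i
    fin_cases i
    · simp [Fin.sum_univ_two, h3]
    · simp [Fin.sum_univ_two, h2, h5]
  rw [h6]
  rfl

end Pool.Agent.U367.TD
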