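import Pool.Agent.U367.TD.Asm

set_option autoImplicit false

namespace Pool.Agent.U367.TD

open Pool.Agent.N171 TensorProduct

variable {p : ℕ} [Fact p.Prime]

/-- the matrix `(θ, 1; 1, 0)` -/
noncomputable abbrev B0 (θ : ℤ_[p]) : Matrix (Fin 2) (Fin 2) ℤ_[p] := !![θ, 1; 1, 0]

theorem riemann (e : ℤ_[p] →+ Additive ℚ_[p]ˣ)
    (hn : ∀ z, ‖(((e z).toMul : ℚ_[p]ˣ) : ℚ_[p])‖ = 1) (π : ℚ_[p]ˣ) (hπ : (π : ℚ_[p]) = p)
    (θ : ℤ_[p]) : IsRiemann (qB e π (B0 θ)) := by
  have hp1 : (1 : ℝ) < p := by exact_mod_cast (Fact.out : p.Prime).one_lt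
  constructor
  · ext i j
    fin_cases i <;> fin_cases j <;> simp [qB, B0]
  · have h1 : (Matrix.of fun i j => -Real.log ‖((qB e π (B0 θ) i j : ℚ_[p]ˣ) : ℚ_[p])‖) =
        Matrix.diagonal (fun _ : Fin 2 => Real.log p) := by
      ext i j
      rw [Matrix.of_apply, Matrix.diagonal_apply]
      change -Real.log ‖(((if i = j then π else 1) * (e (B0 θ i j)).toMul : ℚ_[p]ˣ) : ℚ_[p])‖ = _
      rw [Units.val_mul, norm_mul, hn, mul_one]
      split_ifs
      · rw [hπ, Padic.norm_p, Real.log_inv, neg_neg]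
      · rw [Units.val_one, norm_one, Real.log_one, neg_zero]
    rw [h1]
    exact Matrix.PosDef.diagonal fun _ => Real.log_pos hp1

theorem fin (hE : S_E) (hI : S_IND) (hEnd : S_END) : S_FINAL := by
  intro p _
  obtain ⟨e, he, hn⟩ := hE p
  obtain ⟨θ, hθ⟩ := t_TH p
  have hp0 : ((p : ℕ) : ℚ_[p]) ≠ 0 := by exact_mod_cast (Fact.out : p.Prime).ne_zero
  obtain ⟨π, hπ⟩ : ∃ π : ℚ_[p]ˣ, (π : ℚ_[p]) = p := ⟨Units.mk0 _ hp0, rfl⟩
  have hend : ∀ f : AV (qB e π (B0 θ)) →+ AV (qB e π (B0 θ)), IsEndo (qB e π (B0 θ)) f →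
      ∃ n : ℤ, ∀ x, f x = n • x := fun f hf => hEnd p e he hn θ hθ π hπ f hf
  refine ⟨qB e π (B0 θ), riemann e hn π hπ θ, hend, ?_⟩
  obtain ⟨φ, hφ⟩ := exists_phi' e hn π hπ (B0 θ) (qB e π (B0 θ)) (qB_map e π (B0 θ))
  have hQ := qB_map e π (B0 θ)
  refine ⟨LinearMap.baseChange ℚ_[p] φ, ?_, ?_⟩
  · intro σ
    have key : φ ∘ₗ tmMap (galA (qB e π (B0 θ)) σ) = tmMap (galA (qB e π (B0 θ)) σ) ∘ₗ φ := by
      apply LinearMap.ext
      intro a
      apply tm_ext
      intro n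
      obtain ⟨M, D, h⟩ := exists_approx (B0 θ) n
      obtain ⟨x, hx⟩ := QuotientAddGroup.mk_surjective (a.1 n)
      have h1 := tm_tors a n
      rw [← hx] at h1
      have h2 : (QuotientAddGroup.mk (p ^ n • x) : AV (qB e π (B0 θ))) = 0 := h1
      rw [QuotientAddGroup.eq_zero_iff] at h2
      obtain ⟨m, hm⟩ := h2
      have h3 := hφ a n x m M D h hx.symm hm.symm
      have h4 : (tmMap (galA (qB e π (B0 θ)) σ) a).1 n = QuotientAddGroup.mk (galT σ x) := by
        rw [tmMap_apply, ← hx]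
        rfl
      have h5 : p ^ n • galT σ x = per ((qB e π (B0 θ)).map incl) m := by
        rw [← map_nsmul, ← hm]
        exact galT_per σ _ m
      have h6 := hφ (tmMap (galA (qB e π (B0 θ)) σ) a) n (galT σ x) m M D h h4 h5
      change (φ (tmMap (galA (qB e π (B0 θ)) σ) a)).1 n = galA (qB e π (B0 θ)) σ ((φ a).1 n)
      rw [h3, h6]
      have h7 : galT σ (FF (inclH.comp e) M D x m) = FF (inclH.comp e) M D (galT σ x) m := by
        unfold FF
        rw [map_add, galT_mact]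
        congr 1
        exact galT_inclH σ _
      rw [← h7]
      rfl
    have h8 := congrArg (LinearMap.baseChange ℚ_[p]) key
    rw [LinearMap.baseChange_comp, LinearMap.baseChange_comp] at h8
    exact h8
  · intro hmem
    -- the span consists of scalars
    have h1 : ∃ c : ℚ_[p], LinearMap.baseChange ℚ_[p] φ =
        c • (LinearMap.id : VA (qB e π (B0 θ)) →ₗ[ℚ_[p]] VA (qB e π (B0 θ))) := by
      have h2 : Submodule.span ℚ_[p] {ψ | ∃ f, IsEndo (qB e π (B0 θ)) f ∧ ψ = vMap f} ≤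
          Submodule.span ℚ_[p] {(LinearMap.id : VA (qB e π (B0 θ)) →ₗ[ℚ_[p]] VA (qB e π (B0 θ)))} := by
        rw [Submodule.span_le]
        rintro _ ⟨f, hf, rfl⟩
        obtain ⟨n, hnf⟩ := hend f hf
        rw [SetLike.mem_coe, Submodule.mem_span_singleton]
        refine ⟨(n : ℚ_[p]), ?_⟩
        have h3 : (tmMap f : TateMod p (AV (qB e π (B0 θ))) →ₗ[ℤ_[p]] _) =
            (n : ℤ_[p]) • LinearMap.id := by
          apply LinearMap.ext
          intro a
          rw [LinearMap.smul_apply, LinearMap.id_apply, Int.cast_smul_eq_zsmul]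
          apply tm_ext
          intro k
          rw [tmMap_apply, hnf]
          rfl
        unfold vMap
        rw [h3, LinearMap.baseChange_smul, LinearMap.baseChange_id]
        exact LinearMap.ext fun v =>
          (Int.cast_smul_eq_zsmul ℚ_[p] n v).trans (Int.cast_smul_eq_zsmul ℤ_[p] n v).symm
      obtain ⟨c, hc⟩ := Submodule.mem_span_singleton.1 (h2 hmem)
      exact ⟨c, hc.symm⟩
    obtain ⟨c, hc⟩ := h1
    obtain ⟨⟨z, w⟩, hzw⟩ := IsLocalization.surj (nonZeroDivisors ℤ_[p]) c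
    have hw : (w : ℤ_[p]) ≠ 0 := nonZeroDivisors.ne_zero w.2
    have h4 : ∀ a, (-z) • a + (w : ℤ_[p]) • φ a = 0 := by
      intro a
      apply tmul_inj
      have h5 := congrArg (fun L => L ((1 : ℚ_[p]) ⊗ₜ[ℤ_[p]] a)) hc
      simp only [LinearMap.baseChange_tmul, LinearMap.smul_apply, LinearMap.id_apply] at h5
      change (1 : ℚ_[p]) ⊗ₜ[ℤ_[p]] ((-z) • a + (w : ℤ_[p]) • φ a) = (1 : ℚ_[p]) ⊗ₜ[ℤ_[p]] 0
      rw [TensorProduct.tmul_zero, TensorProduct.tmul_add, TensorProduct.tmul_smul,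
        TensorProduct.tmul_smul, h5, ← algebraMap_smul ℚ_[p] (w : ℤ_[p]), smul_smul,
        mul_comm, hzw, algebraMap_smul, neg_smul, neg_add_cancel]
    have hdiv : ∀ x : UU p, ∃ y, p • y = x := by
      intro x
      obtain ⟨y, hy⟩ := IsAlgClosed.exists_pow_nat_eq ((x.toMul : (PadicAlgCl p)ˣ) : PadicAlgCl p)
        (Fact.out : p.Prime).pos
      have hy0 : y ≠ 0 := by
        rintro rfl
        rw [zero_pow (Fact.out : p.Prime).ne_zero] at hy
        exact Units.ne_zero _ hy.symm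
      refine ⟨Additive.ofMul (Units.mk0 y hy0), ?_⟩
      apply Additive.toMul.injective
      apply Units.ext
      exact hy
    -- transport to `qm`
    have main : ∀ (Q : Matrix (Fin 2) (Fin 2) (UU p))
        (hQ : Q = qm (incl π : UU p) (inclH.comp e) (B0 θ))
        (φ : TateMod p ((Fin 2 → UU p) ⧸ (per Q).range) →ₗ[ℤ_[p]]
          TateMod p ((Fin 2 → UU p) ⧸ (per Q).range)),
        (∀ (a : TateMod p ((Fin 2 → UU p) ⧸ (per Q).range)) (n : ℕ) (x : Fin 2 → UU p)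
          (m : Fin 2 → ℤ) (M : Matrix (Fin 2) (Fin 2) ℤ) (D : Matrix (Fin 2) (Fin 2) ℤ_[p]),
          B0 θ = cm p M + (p : ℤ_[p]) ^ n • D → a.1 n = QuotientAddGroup.mk x →
          p ^ n • x = per Q m → (φ a).1 n = QuotientAddGroup.mk (FF (inclH.comp e) M D x m)) →
        ∀ z w : ℤ_[p], (∀ a, z • a + w • φ a = 0) → z = 0 ∧ w = 0 := by
      intro Q hQ φ hφ z w hzw
      subst hQ
      exact hI p (UU p) (incl π) (inclH.comp e) (B0 θ) hdiv (perB_inj e hn π hπ (B0 θ)) rfl rfl φ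
        hφ z w hzw
    exact hw (main _ hQ φ hφ (-z) w h4).2

end Pool.Agent.U367.TD
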