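import Pool.Agent.U367.TD.Stm

set_option autoImplicit false

namespace Pool.Agent.U367.TD

open Pool.Agent.N171

variable {U : Type} [AddCommGroup U] {g : ℕ} {p : ℕ} [Fact p.Prime]

/-- cast of an integral vector -/
noncomputable def cz (m : Fin g → ℤ) : Fin g → ℤ_[p] := fun j => (m j : ℤ_[p])

/-- cast of an integral matrix -/
noncomputable def cm (p : ℕ) [Fact p.Prime] (M : Matrix (Fin g) (Fin g) ℤ) : Matrix (Fin g) (Fin g) ℤ_[p] :=
  M.map (Int.cast : ℤ → ℤ_[p])

/-- `e` on vectors -/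
noncomputable def ev (e : ℤ_[p] →+ U) : (Fin g → ℤ_[p]) →+ (Fin g → U) where
  toFun w := fun i => e (w i)
  map_zero' := by
    funext i
    exact map_zero e
  map_add' v w := by
    funext i
    exact map_add e _ _

/-- `π` on vectors -/
def pv (π : U) : (Fin g → ℤ) →+ (Fin g → U) where
  toFun m := fun i => m i • π
  map_zero' := by
    funext i
    exact zero_smul _ _
  map_add' v w := by
    funext i
    exact add_smul _ _ _

theorem cm_add (M N : Matrix (Fin g) (Fin g) ℤ) : cm p (M + N) = cm p M + cm p N := by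
  ext i j
  simp [cm]

theorem cm_smul (k : ℕ) (M : Matrix (Fin g) (Fin g) ℤ) :
    cm p ((k : ℤ) • M) = (k : ℤ_[p]) • cm p M := by
  ext i j
  change (((k : ℤ) * M i j : ℤ) : ℤ_[p]) = (k : ℤ_[p]) * (M i j : ℤ_[p])
  push_cast
  rfl

theorem cz_mulVec (M : Matrix (Fin g) (Fin g) ℤ) (m : Fin g → ℤ) :
    (cz (M.mulVec m) : Fin g → ℤ_[p]) = (cm p M).mulVec (cz m) := by
  funext i
  simp [cz, cm, Matrix.mulVec, dotProduct]

theorem cz_add (m k : Fin g → ℤ) : (cz (m + k) : Fin g → ℤ_[p]) = cz m + cz k := by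
  funext i
  simp [cz]

theorem cz_smul (n : ℕ) (k : Fin g → ℤ) : (cz (n • k) : Fin g → ℤ_[p]) = (n : ℤ_[p]) • cz k := by
  funext i
  simp [cz]

theorem per_eq (π : U) (e : ℤ_[p] →+ U) (B : Matrix (Fin g) (Fin g) ℤ_[p]) (m : Fin g → ℤ) :
    per (qm π e B) m = pv π m + ev e (B.mulVec (cz m)) := by
  funext i
  change ∑ j, m j • ((if i = j then π else 0) + e (B i j)) = m i • π + e (∑ j, B i j * (m j : ℤ_[p]))
  simp only [smul_add, Finset.sum_add_distrib]
  congr 1
  · rw [Finset.sum_eq_single i]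
    · simp
    · intro j _ hj
      rw [if_neg (Ne.symm hj), smul_zero]
    · intro h
      exact absurd (Finset.mem_univ i) h
  · rw [map_sum]
    refine Finset.sum_congr rfl fun j _ => ?_
    rw [← map_zsmul, zsmul_eq_mul, mul_comm]

theorem mact_ev (e : ℤ_[p] →+ U) (M : Matrix (Fin g) (Fin g) ℤ) (w : Fin g → ℤ_[p]) :
    mact M (ev e w) = ev e ((cm p M).mulVec w) := by
  funext i
  change ∑ j, M i j • e (w j) = e (∑ j, (M i j : ℤ_[p]) * w j)
  rw [map_sum]
  refine Finset.sum_congr rfl fun j _ => ?_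
  rw [← map_zsmul, zsmul_eq_mul]

theorem mact_pv (π : U) (M : Matrix (Fin g) (Fin g) ℤ) (m : Fin g → ℤ) :
    mact M (pv π m) = pv π (M.mulVec m) := by
  funext i
  change ∑ j, M i j • m j • π = (∑ j, M i j * m j) • π
  rw [Finset.sum_smul]
  refine Finset.sum_congr rfl fun j _ => ?_
  rw [mul_smul]

theorem mact_add' (M N : Matrix (Fin g) (Fin g) ℤ) (x : Fin g → U) :
    mact (M + N) x = mact M x + mact N x := by
  funext i
  change ∑ j, (M i j + N i j) • x j = ∑ j, M i j • x j + ∑ j, N i j • x j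
  rw [← Finset.sum_add_distrib]
  refine Finset.sum_congr rfl fun j _ => ?_
  rw [add_smul]

theorem mact_smul' (k : ℕ) (M : Matrix (Fin g) (Fin g) ℤ) (x : Fin g → U) :
    mact ((k : ℤ) • M) x = mact M (k • x) := by
  funext i
  change ∑ j, ((k : ℤ) * M i j) • x j = ∑ j, M i j • (k • x j)
  refine Finset.sum_congr rfl fun j _ => ?_
  rw [mul_comm, mul_smul, natCast_zsmul]

/-- the expression of `IsPhi` -/
noncomputable def FF (e : ℤ_[p] →+ U) (M : Matrix (Fin g) (Fin g) ℤ) (D : Matrix (Fin g) (Fin g) ℤ_[p])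
    (x : Fin g → U) (m : Fin g → ℤ) : Fin g → U :=
  mact M x + ev e ((D * cm p M - cm p M * D).mulVec (cz m))

theorem FF_add (e : ℤ_[p] →+ U) (M : Matrix (Fin g) (Fin g) ℤ) (D : Matrix (Fin g) (Fin g) ℤ_[p])
    (x y : Fin g → U) (m k : Fin g → ℤ) :
    FF e M D (x + y) (m + k) = FF e M D x m + FF e M D y k := by
  unfold FF
  rw [map_add, cz_add, Matrix.mulVec_add, map_add]
  abel

theorem FF_smul (e : ℤ_[p] →+ U) (M : Matrix (Fin g) (Fin g) ℤ) (D : Matrix (Fin g) (Fin g) ℤ_[p])
    (k : ℕ) (x : Fin g → U) (m : Fin g → ℤ) :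
    FF e M D (k • x) (k • m) = k • FF e M D x m := by
  have h : ∀ (k : ℕ) (w : Fin g → ℤ_[p]), ev e ((k : ℤ_[p]) • w) = k • ev e w := by
    intro k w
    rw [← map_nsmul, Nat.cast_smul_eq_nsmul]
  unfold FF
  rw [map_nsmul, cz_smul, Matrix.mulVec_smul, h, smul_add]

/-- change of the lift -/
theorem FF_lift (π : U) (e : ℤ_[p] →+ U) (B : Matrix (Fin g) (Fin g) ℤ_[p]) (n : ℕ)
    (M : Matrix (Fin g) (Fin g) ℤ) (D : Matrix (Fin g) (Fin g) ℤ_[p])
    (h : B = cm p M + (p : ℤ_[p]) ^ n • D) (k : Fin g → ℤ) :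
    FF e M D (per (qm π e B) k) (p ^ n • k) = per (qm π e B) (M.mulVec k) := by
  unfold FF
  rw [per_eq, map_add, mact_pv, mact_ev, per_eq, cz_mulVec, cz_smul, add_assoc, ← map_add,
    Matrix.mulVec_mulVec, Matrix.mulVec_mulVec, Matrix.mulVec_smul, ← Matrix.smul_mulVec,
    ← Matrix.add_mulVec]
  congr 3
  have h1 : (((p ^ n : ℕ)) : ℤ_[p]) • (D * cm p M - cm p M * D) =
      ((p : ℤ_[p]) ^ n • D) * cm p M - cm p M * ((p : ℤ_[p]) ^ n • D) := by
    rw [smul_mul_assoc, mul_smul_comm, ← smul_sub, Nat.cast_pow]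
  have h2 : (p : ℤ_[p]) ^ n • D = B - cm p M := by
    rw [h]
    abel
  rw [h1, h2]
  noncomm_ring

/-- change of the approximation -/
theorem FF_approx (π : U) (e : ℤ_[p] →+ U) (B : Matrix (Fin g) (Fin g) ℤ_[p]) (n : ℕ)
    (M M' : Matrix (Fin g) (Fin g) ℤ) (D D' : Matrix (Fin g) (Fin g) ℤ_[p])
    (h : B = cm p M + (p : ℤ_[p]) ^ n • D) (h' : B = cm p M' + (p : ℤ_[p]) ^ n • D')
    (x : Fin g → U) (m : Fin g → ℤ) (hx : p ^ n • x = per (qm π e B) m) :
    ∃ k, FF e M D x m = FF e M' D' x m + per (qm π e B) k := by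
  have hp : (p : ℤ_[p]) ^ n ≠ 0 := pow_ne_zero _ (by exact_mod_cast (Fact.out : p.Prime).ne_zero)
  have h1 : ∀ i j, ∃ c : ℤ, M i j = M' i j + (p : ℤ) ^ n * c := by
    intro i j
    have h2 := congrFun (congrFun (h.symm.trans h') i) j
    simp only [cm, Matrix.add_apply, Matrix.map_apply, Matrix.smul_apply, smul_eq_mul] at h2
    have h3 : (p : ℤ_[p]) ^ n ∣ ((M i j - M' i j : ℤ) : ℤ_[p]) := by
      refine ⟨D' i j - D i j, ?_⟩
      push_cast
      linear_combination h2
    have h4 : (p : ℤ) ^ n ∣ M i j - M' i j := by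
      have h5 := (PadicInt.pow_p_dvd_int_iff n (M i j - M' i j)).1 h3
      exact_mod_cast h5
    obtain ⟨c, hc⟩ := h4
    exact ⟨c, by linarith⟩
  choose G hG using h1
  have hM : M = M' + ((p ^ n : ℕ) : ℤ) • (Matrix.of G) := by
    ext i j
    simp only [Matrix.add_apply, Matrix.smul_apply, Matrix.of_apply, smul_eq_mul, Nat.cast_pow]
    exact hG i j
  have hc : cm p M = cm p M' + (p : ℤ_[p]) ^ n • cm p (Matrix.of G) := by
    rw [hM, cm_add, cm_smul, Nat.cast_pow]
  have hD : D' = D + cm p (Matrix.of G) := by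
    have h2 : (p : ℤ_[p]) ^ n • D' = (p : ℤ_[p]) ^ n • (D + cm p (Matrix.of G)) := by
      have h3 := h.symm.trans h'
      rw [hc] at h3
      rw [smul_add]
      have h4 : cm p M' + ((p : ℤ_[p]) ^ n • D + (p : ℤ_[p]) ^ n • cm p (Matrix.of G)) =
          cm p M' + (p : ℤ_[p]) ^ n • D' := by
        rw [← h3]
        abel
      exact (add_left_cancel h4).symm
    ext i j
    have h3 := congrFun (congrFun h2 i) j
    simp only [Matrix.smul_apply, smul_eq_mul] at h3
    exact mul_left_cancel₀ hp h3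
  refine ⟨(Matrix.of G).mulVec m, ?_⟩
  set Gm : Matrix (Fin g) (Fin g) ℤ := Matrix.of G with hGm
  have e1 : mact M x = mact M' x + (pv π (Gm.mulVec m) + ev e ((cm p Gm * B).mulVec (cz m))) := by
    rw [hM, mact_add', mact_smul', hx, per_eq, map_add, mact_pv, mact_ev, Matrix.mulVec_mulVec]
  have e2 : per (qm π e B) (Gm.mulVec m) =
      pv π (Gm.mulVec m) + ev e ((B * cm p Gm).mulVec (cz m)) := by
    rw [per_eq, cz_mulVec, Matrix.mulVec_mulVec]
  have e3 : cm p Gm * B + (D * cm p M - cm p M * D) =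
      (D' * cm p M' - cm p M' * D') + B * cm p Gm := by
    rw [hc, h', hD]
    simp only [mul_add, add_mul, smul_mul_assoc, mul_smul_comm, smul_add]
    abel
  unfold FF
  rw [e1, e2]
  have e4 : ev e ((cm p Gm * B).mulVec (cz m)) + ev e ((D * cm p M - cm p M * D).mulVec (cz m)) =
      ev e ((D' * cm p M' - cm p M' * D').mulVec (cz m)) + ev e ((B * cm p Gm).mulVec (cz m)) := by
    rw [← map_add, ← map_add, ← Matrix.add_mulVec, ← Matrix.add_mulVec, e3]
  calc mact M' x + (pv π (Gm.mulVec m) + ev e ((cm p Gm * B).mulVec (cz m))) +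
        ev e ((D * cm p M - cm p M * D).mulVec (cz m)) =
      mact M' x + pv π (Gm.mulVec m) + (ev e ((cm p Gm * B).mulVec (cz m)) +
        ev e ((D * cm p M - cm p M * D).mulVec (cz m))) := by abel
    _ = _ := by
      rw [e4]
      abel

/-- approximation of a matrix -/
theorem exists_approx (B : Matrix (Fin g) (Fin g) ℤ_[p]) (n : ℕ) :
    ∃ (M : Matrix (Fin g) (Fin g) ℤ) (D : Matrix (Fin g) (Fin g) ℤ_[p]),
      B = cm p M + (p : ℤ_[p]) ^ n • D := by
  have h : ∀ i j, ∃ (c : ℤ) (d : ℤ_[p]), B i j = c + (p : ℤ_[p]) ^ n * d := by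
    intro i j
    have h1 := PadicInt.appr_spec n (B i j)
    rw [Ideal.mem_span_singleton] at h1
    obtain ⟨d, hd⟩ := h1
    refine ⟨((B i j).appr n : ℤ), d, ?_⟩
    rw [← hd]
    push_cast
    ring
  choose M D h using h
  refine ⟨Matrix.of M, Matrix.of D, ?_⟩
  ext i j
  rw [h i j]
  rfl

section phi

variable (π : U) (e : ℤ_[p] →+ U) (B : Matrix (Fin g) (Fin g) ℤ_[p])

/-- the quotient -/
abbrev QQ : Type := (Fin g → U) ⧸ (per (qm π e B)).range

variable {π e B}

/-- the classes in the quotient -/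
theorem mk_eq_iff (x y : Fin g → U) :
    (QuotientAddGroup.mk x : QQ π e B) = QuotientAddGroup.mk y ↔ ∃ k, y = x + per (qm π e B) k := by
  rw [QuotientAddGroup.eq]
  constructor
  · rintro ⟨k, hk⟩
    exact ⟨k, by rw [hk]; abel⟩
  · rintro ⟨k, hk⟩
    exact ⟨k, by rw [hk]; abel⟩

/-- data of a torsion point -/
theorem exists_lift (a : TateMod p (QQ π e B)) (n : ℕ) : ∃ (x : Fin g → U) (m : Fin g → ℤ),
    a.1 n = QuotientAddGroup.mk x ∧ p ^ n • x = per (qm π e B) m := by
  obtain ⟨x, hx⟩ := QuotientAddGroup.mk_surjective (a.1 n)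
  have h := tm_tors a n
  rw [← hx] at h
  have h1 : (QuotientAddGroup.mk (p ^ n • x) : QQ π e B) = QuotientAddGroup.mk 0 := h
  obtain ⟨k, hk⟩ := (mk_eq_iff _ _).1 h1.symm
  rw [zero_add] at hk
  exact ⟨x, k, hx.symm, hk⟩

/-- independence of all choices -/
theorem FF_wd (hinj : Function.Injective (per (qm π e B))) (n : ℕ)
    {M M' : Matrix (Fin g) (Fin g) ℤ} {D D' : Matrix (Fin g) (Fin g) ℤ_[p]}
    (h : B = cm p M + (p : ℤ_[p]) ^ n • D) (h' : B = cm p M' + (p : ℤ_[p]) ^ n • D')
    {x x' : Fin g → U} {m m' : Fin g → ℤ} (hx : p ^ n • x = per (qm π e B) m)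
    (hx' : p ^ n • x' = per (qm π e B) m')
    (hxx : (QuotientAddGroup.mk x : QQ π e B) = QuotientAddGroup.mk x') :
    (QuotientAddGroup.mk (FF e M D x m) : QQ π e B) = QuotientAddGroup.mk (FF e M' D' x' m') := by
  obtain ⟨k, hk⟩ := (mk_eq_iff _ _).1 hxx
  have hm : m' = m + p ^ n • k := by
    apply hinj
    rw [← hx', hk, smul_add, hx, map_add, map_nsmul]
  obtain ⟨l, hl⟩ := FF_approx π e B n M M' D D' h h' x m hx
  rw [mk_eq_iff]
  refine ⟨M'.mulVec k - l, ?_⟩
  rw [hk, hm, FF_add, FF_lift π e B n M' D' h' k, hl, map_sub]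
  abel

/-- the map -/
noncomputable def phiFun (hinj : Function.Injective (per (qm π e B)))
    (a : TateMod p (QQ π e B)) : TateMod p (QQ π e B) where
  seq n := QuotientAddGroup.mk (FF e (exists_approx B n).choose
    (exists_approx B n).choose_spec.choose (exists_lift a n).choose
    (exists_lift a n).choose_spec.choose)
  prop := by
    have key : ∀ n (M : Matrix (Fin g) (Fin g) ℤ) (D : Matrix (Fin g) (Fin g) ℤ_[p]),
        B = cm p M + (p : ℤ_[p]) ^ n • D → ∀ (x : Fin g → U) (m : Fin g → ℤ),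
        a.1 n = QuotientAddGroup.mk x → p ^ n • x = per (qm π e B) m →
        (QuotientAddGroup.mk (FF e (exists_approx B n).choose
          (exists_approx B n).choose_spec.choose (exists_lift a n).choose
          (exists_lift a n).choose_spec.choose) : QQ π e B) = QuotientAddGroup.mk (FF e M D x m) := by
      intro n M D h x m hx hm
      exact FF_wd hinj n (exists_approx B n).choose_spec.choose_spec h
        (exists_lift a n).choose_spec.choose_spec.2 hm
        ((exists_lift a n).choose_spec.choose_spec.1.symm.trans hx)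
    constructor
    · obtain ⟨M, D, h⟩ := exists_approx B 0
      rw [key 0 M D h 0 0 (by rw [tm_zero]; rfl) (by rw [smul_zero, map_zero])]
      have h1 : FF e M D 0 0 = (0 : Fin g → U) := by
        have h2 := FF_smul e M D 0 0 0
        rw [zero_smul, zero_smul, zero_smul] at h2
        exact h2
      rw [h1]
      rfl
    · intro n
      obtain ⟨M, D, h⟩ := exists_approx B (n + 1)
      obtain ⟨x, m, hx, hm⟩ := exists_lift a (n + 1)
      rw [key (n + 1) M D h x m hx hm]
      have h2 : B = cm p M + (p : ℤ_[p]) ^ n • ((p : ℤ_[p]) • D) := by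
        rw [smul_smul, ← pow_succ]
        exact h
      have h3 : a.1 n = QuotientAddGroup.mk (p • x) := by
        rw [← tm_succ, hx]
        rfl
      have h4 : p ^ n • (p • x) = per (qm π e B) m := by
        rw [smul_smul, ← pow_succ]
        exact hm
      rw [key n M ((p : ℤ_[p]) • D) h2 (p • x) m h3 h4]
      have h5 : FF e M ((p : ℤ_[p]) • D) (p • x) m = p • FF e M D x m := by
        unfold FF
        rw [smul_add, map_nsmul, smul_mul_assoc, mul_smul_comm, ← smul_sub, Matrix.smul_mulVec]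
        congr 1
        rw [← map_nsmul, Nat.cast_smul_eq_nsmul]
      rw [h5]
      rfl

theorem phiFun_spec (hinj : Function.Injective (per (qm π e B))) (a : TateMod p (QQ π e B)) (n : ℕ)
    (M : Matrix (Fin g) (Fin g) ℤ) (D : Matrix (Fin g) (Fin g) ℤ_[p])
    (h : B = cm p M + (p : ℤ_[p]) ^ n • D) (x : Fin g → U) (m : Fin g → ℤ)
    (hx : a.1 n = QuotientAddGroup.mk x) (hm : p ^ n • x = per (qm π e B) m) :
    (phiFun hinj a).1 n = QuotientAddGroup.mk (FF e M D x m) :=
  FF_wd hinj n (exists_approx B n).choose_spec.choose_spec h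
    (exists_lift a n).choose_spec.choose_spec.2 hm
    ((exists_lift a n).choose_spec.choose_spec.1.symm.trans hx)

/-- the endomorphism -/
noncomputable def phi (hinj : Function.Injective (per (qm π e B))) :
    TateMod p (QQ π e B) →ₗ[ℤ_[p]] TateMod p (QQ π e B) where
  toFun := phiFun hinj
  map_add' a b := by
    apply tm_ext
    intro n
    obtain ⟨M, D, h⟩ := exists_approx B n
    obtain ⟨x, m, hx, hm⟩ := exists_lift a n
    obtain ⟨y, k, hy, hk⟩ := exists_lift b n
    have h1 : (a + b).1 n = QuotientAddGroup.mk (x + y) := by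
      change a.1 n + b.1 n = _
      rw [hx, hy]
      rfl
    have h2 : p ^ n • (x + y) = per (qm π e B) (m + k) := by
      rw [smul_add, hm, hk, map_add]
    rw [phiFun_spec hinj (a + b) n M D h _ _ h1 h2]
    change _ = (phiFun hinj a).1 n + (phiFun hinj b).1 n
    rw [phiFun_spec hinj a n M D h _ _ hx hm, phiFun_spec hinj b n M D h _ _ hy hk, FF_add]
    rfl
  map_smul' z a := by
    apply tm_ext
    intro n
    obtain ⟨M, D, h⟩ := exists_approx B n
    obtain ⟨x, m, hx, hm⟩ := exists_lift a n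
    rw [RingHom.id_apply, tm_smul_apply, phiFun_spec hinj a n M D h _ _ hx hm]
    have h1 : (z • a).1 n = QuotientAddGroup.mk ((PadicInt.toZModPow n z).val • x) := by
      rw [tm_smul_apply, hx]
      rfl
    have h2 : p ^ n • ((PadicInt.toZModPow n z).val • x) =
        per (qm π e B) ((PadicInt.toZModPow n z).val • m) := by
      rw [smul_comm, hm, map_nsmul]
    rw [phiFun_spec hinj (z • a) n M D h _ _ h1 h2, FF_smul]
    rfl

end phi

theorem t_PHI : S_PHI := by
  intro p _ U _ g π e B hinj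
  refine ⟨phi hinj, ?_⟩
  intro a n x m M D h hx hm
  exact phiFun_spec hinj a n M D h x m hx hm

end Pool.Agent.U367.TD
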